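import Pool.Agent.Helper96.TF.Bump

set_option autoImplicit false

open MeasureTheory

namespace Pool.Agent.Helper96.TF

noncomputable section

lemma norm_e (i : Fin 3) : ‖e i‖ = 1 := by
  unfold e; simp

lemma hprof_far {x : X} (h : 1 ≤ ‖x‖) : hprof (‖x‖ ^ 2) = -(‖x‖⁻¹ ^ 3) := by
  rcases eq_or_lt_of_le h with h1 | h1
  · rw [← h1]; norm_num [hprof]
  · unfold hprof
    rw [if_neg (by
      rw [sq_le_one_iff_abs_le_one, abs_of_nonneg (norm_nonneg x)]; exact not_le.mpr h1),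
      Real.sqrt_sq (norm_nonneg x)]

lemma norm_sq_three (x : X) : ‖x‖ ^ 2 = x 0 ^ 2 + x 1 ^ 2 + x 2 ^ 2 := by
  rw [EuclideanSpace.norm_sq_eq, Fin.sum_univ_three]
  simp

lemma b_decay {x : X} (h : 1 ≤ ‖x‖) : ∑ i, (b i x) ^ 2 ≤ ‖x‖⁻¹ ^ 4 := by
  unfold b
  rw [Fin.sum_univ_three, hprof_far h]
  have h3 : ‖x‖⁻¹ * ‖x‖ = 1 := inv_mul_cancel₀ (by linarith)
  have : (-(‖x‖⁻¹ ^ 3) * x 0) ^ 2 + (-(‖x‖⁻¹ ^ 3) * x 1) ^ 2 + (-(‖x‖⁻¹ ^ 3) * x 2) ^ 2
      = ‖x‖⁻¹ ^ 6 * ‖x‖ ^ 2 := by rw [norm_sq_three x]; ring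
  rw [this]
  have h5 : ‖x‖⁻¹ ^ 6 * ‖x‖ ^ 2 = ‖x‖⁻¹ ^ 4 := by
    calc ‖x‖⁻¹ ^ 6 * ‖x‖ ^ 2 = ‖x‖⁻¹ ^ 4 * (‖x‖⁻¹ * ‖x‖) ^ 2 := by ring
      _ = _ := by rw [h3]; ring
  rw [h5]


/-! ### integration by parts -/

lemma int_mul {u w : X → ℝ} (hu : Measurable u) {C : ℝ} (hC : ∀ x, |u x| ≤ C) {K : Set X}
    (hK : IsCompact K) (h0 : ∀ x, x ∉ K → u x = 0) (hw : Continuous w) :
    Integrable (fun x => u x * w x) := by
  obtain ⟨D, hD⟩ := hK.exists_bound_of_continuousOn hw.continuousOn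
  have hon : IntegrableOn (fun x => u x * w x) K := by
    refine Measure.integrableOn_of_bounded (M := C * D) hK.measure_lt_top.ne
      (hu.mul hw.measurable).aestronglyMeasurable ?_
    refine (ae_restrict_mem hK.measurableSet).mono ?_
    intro x hx
    rw [norm_mul, Real.norm_eq_abs]
    have h1 : 0 ≤ C := le_trans (abs_nonneg _) (hC x)
    exact mul_le_mul (hC x) (hD x hx) (norm_nonneg _) h1
  rw [integrableOn_iff_integrable_of_support_subset] at hon
  · exact hon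
  · intro x hx
    by_contra hxK
    exact hx (by simp [h0 x hxK])

lemma lineDeriv_zero_of_notMem {f : X → ℝ} {x w : X} (hx : x ∉ tsupport f) :
    lineDeriv ℝ f x w = 0 := by
  have h1 : f =ᶠ[nhds x] fun _ => 0 := notMem_tsupport_iff_eventuallyEq.mp hx
  have h2 : (fun t : ℝ => f (x + t • w)) =ᶠ[nhds 0] fun _ => 0 := by
    have hc : Filter.Tendsto (fun t : ℝ => x + t • w) (nhds 0) (nhds x) := by
      have : Continuous (fun t : ℝ => x + t • w) := by fun_prop
      have h3 := this.tendsto 0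
      simpa using h3
    exact hc.eventually h1
  unfold lineDeriv
  rw [h2.deriv_eq]
  simp

lemma lineDeriv_abs_le {f : X → ℝ} {C : NNReal} (hf : LipschitzWith C f) (x : X) (i : Fin 3) :
    |lineDeriv ℝ f x (e i)| ≤ C := by
  have := norm_lineDeriv_le_of_lipschitz ℝ hf (x₀ := x) (v := e i)
  rwa [norm_e, mul_one] at this

lemma green_one {f g : X → ℝ} {C D : NNReal} (hf : LipschitzWith C f) (hg : LipschitzWith D g)
    (hs : HasCompactSupport g) (i : Fin 3) :
    ∫ x, g x * lineDeriv ℝ f x (e i) = - ∫ x, lineDeriv ℝ g x (e i) * f x := by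
  have h := LipschitzWith.integral_lineDeriv_mul_eq (μ := volume) hf hg hs (e i)
  calc ∫ x, g x * lineDeriv ℝ f x (e i) = ∫ x, lineDeriv ℝ f x (e i) * g x := by
        congr 1; funext x; ring
    _ = ∫ x, lineDeriv ℝ g x (-(e i)) * f x := h
    _ = ∫ x, -(lineDeriv ℝ g x (e i) * f x) := by
        congr 1; funext x; rw [lineDeriv_neg]; ring
    _ = _ := integral_neg _

/-- compactly supported vector field, Lipschitz function -/
lemma green_field {G : Fin 3 → X → ℝ} {ρ f : X → ℝ} {C : NNReal} {D : Fin 3 → NNReal}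
    (hf : LipschitzWith C f) (hG : ∀ i, LipschitzWith (D i) (G i))
    (hs : ∀ i, HasCompactSupport (G i))
    (hdiv : ∀ x, ∑ i, lineDeriv ℝ (G i) x (e i) = -(4 * Real.pi) * ρ x) :
    ∫ x, ∑ i, G i x * lineDeriv ℝ f x (e i) = 4 * Real.pi * ∫ x, ρ x * f x := by
  have hi1 : ∀ i, Integrable (fun x => G i x * lineDeriv ℝ f x (e i)) := by
    intro i
    have hb : Integrable (G i) := (hG i).continuous.integrable_of_hasCompactSupport (hs i)
    have h2 := hb.bdd_mul (f := fun x => lineDeriv ℝ f x (e i)) (c := (C : ℝ))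
      (measurable_lineDeriv hf.continuous).aestronglyMeasurable
      (Filter.Eventually.of_forall fun x => lineDeriv_abs_le hf x i)
    refine h2.congr (Filter.Eventually.of_forall fun x => ?_)
    simp only
    ring
  have hi2 : ∀ i, Integrable (fun x => lineDeriv ℝ (G i) x (e i) * f x) := by
    intro i
    exact int_mul (measurable_lineDeriv (hG i).continuous) (fun x => lineDeriv_abs_le (hG i) x i)
      (hs i) (fun x hx => lineDeriv_zero_of_notMem hx) hf.continuous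
  rw [integral_finsetSum _ (fun i _ => hi1 i)]
  simp only [green_one hf (hG _) (hs _)]
  rw [Finset.sum_neg_distrib, ← integral_finsetSum _ (fun i _ => hi2 i)]
  rw [← integral_neg, ← integral_const_mul]
  congr 1
  funext x
  rw [← Finset.sum_mul, hdiv x]
  ring

/-- Lipschitz vector field, compactly supported function -/
lemma green_test {G : Fin 3 → X → ℝ} {ρ ψ : X → ℝ} {D : Fin 3 → NNReal}
    (hψ : Test ψ) (hG : ∀ i, LipschitzWith (D i) (G i))
    (hdiv : ∀ x, ∑ i, lineDeriv ℝ (G i) x (e i) = -(4 * Real.pi) * ρ x) :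
    ∫ x, ∑ i, G i x * lineDeriv ℝ ψ x (e i) = 4 * Real.pi * ∫ x, ρ x * ψ x := by
  obtain ⟨⟨C, hC⟩, hs⟩ := hψ
  have hi1 : ∀ i, Integrable (fun x => G i x * lineDeriv ℝ ψ x (e i)) := by
    intro i
    have h := int_mul (measurable_lineDeriv hC.continuous) (fun x => lineDeriv_abs_le hC x i)
      hs (fun x hx => lineDeriv_zero_of_notMem hx) (hG i).continuous
    refine h.congr (Filter.Eventually.of_forall fun x => ?_)
    simp only
    ring
  have hi2 : ∀ i, Integrable (fun x => lineDeriv ℝ (G i) x (e i) * ψ x) := by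
    intro i
    have hb : Integrable ψ := hC.continuous.integrable_of_hasCompactSupport hs
    exact hb.bdd_mul (c := (D i : ℝ)) (measurable_lineDeriv (hG i).continuous).aestronglyMeasurable
      (Filter.Eventually.of_forall fun x => lineDeriv_abs_le (hG i) x i)
  rw [integral_finsetSum _ (fun i _ => hi1 i)]
  have key : ∀ i, ∫ x, G i x * lineDeriv ℝ ψ x (e i) = - ∫ x, lineDeriv ℝ (G i) x (e i) * ψ x := by
    intro i
    have h := green_one (f := G i) (g := ψ) (hG i) hC hs i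
    have e1 : ∫ x, G i x * lineDeriv ℝ ψ x (e i) = ∫ x, lineDeriv ℝ ψ x (e i) * G i x := by
      congr 1; funext x; ring
    have e2 : ∫ x, lineDeriv ℝ (G i) x (e i) * ψ x = ∫ x, ψ x * lineDeriv ℝ (G i) x (e i) := by
      congr 1; funext x; ring
    rw [e1, e2, h, neg_neg]
  simp only [key]
  rw [Finset.sum_neg_distrib, ← integral_finsetSum _ (fun i _ => hi2 i)]
  rw [← integral_neg, ← integral_const_mul]
  congr 1
  funext x
  rw [← Finset.sum_mul, hdiv x]
  ring

/-! ### the smeared charge -/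

lemma m_nonneg (x : X) : 0 ≤ m x := by
  unfold m
  have := Real.pi_pos
  positivity

lemma m_le (x : X) : m x ≤ 1 := by
  unfold m
  have h3 := Real.pi_gt_three
  have h1 : 15 / (8 * Real.pi) ≤ 1 := by
    rw [div_le_one (by positivity)]; linarith
  have h2 : max (1 - ‖x‖ ^ 2) 0 ≤ 1 := by
    apply max_le _ zero_le_one
    have := sq_nonneg ‖x‖
    linarith
  have h4 : (0 : ℝ) ≤ max (1 - ‖x‖ ^ 2) 0 := le_max_right _ _
  have h5 : (0 : ℝ) ≤ 15 / (8 * Real.pi) := by positivity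
  nlinarith

lemma m_supp {x : X} (h : 1 ≤ ‖x‖) : m x = 0 := by
  unfold m
  rw [max_eq_right (by nlinarith), mul_zero]

lemma m_cont : Continuous m := by
  unfold m
  fun_prop

lemma m_even (x : X) : m (-x) = m x := by
  unfold m
  rw [norm_neg]

lemma m_int : ∫ x, m x = 1 := by
  have h := integral_fun_norm_addHaar (volume : Measure X)
    (fun r : ℝ => (15 / (8 * Real.pi)) * max (1 - r ^ 2) 0)
  have e1 : ∫ x, m x = ∫ x : X, (fun r : ℝ => (15 / (8 * Real.pi)) * max (1 - r ^ 2) 0) ‖x‖ := rfl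
  rw [e1, h]
  have hd : Module.finrank ℝ X = 3 := by simp
  rw [hd]
  have hv : (volume : Measure X).real (Metric.ball 0 1) = Real.pi * 4 / 3 := by
    have hpi := Real.pi_pos
    rw [Measure.real, EuclideanSpace.volume_ball_fin_three]
    simp only [ENNReal.ofReal_one, one_pow, one_mul]
    rw [ENNReal.toReal_ofReal (by positivity)]
  rw [hv]
  have hI : ∫ y in Set.Ioi (0 : ℝ), y ^ (3 - 1) • ((15 / (8 * Real.pi)) * max (1 - y ^ 2) 0)
      = (15 / (8 * Real.pi)) * (2 / 15) := by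
    have h1 : ∀ y ∈ Set.Ioi (0 : ℝ), y ^ (3 - 1) • ((15 / (8 * Real.pi)) * max (1 - y ^ 2) 0)
        = (Set.Ioc (0 : ℝ) 1).indicator
          (fun y => (15 / (8 * Real.pi)) * (y ^ 2 - y ^ 4)) y := by
      intro y hy
      simp only [Set.mem_Ioi] at hy
      by_cases h : y ≤ 1
      · rw [Set.indicator_of_mem (show y ∈ Set.Ioc (0 : ℝ) 1 from ⟨hy, h⟩)]
        rw [max_eq_left (by nlinarith)]
        simp only [smul_eq_mul]
        ring
      · rw [Set.indicator_of_notMem (fun h' => h h'.2)]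
        push Not at h
        rw [max_eq_right (by nlinarith)]
        simp
    rw [setIntegral_congr_fun measurableSet_Ioi h1, setIntegral_indicator measurableSet_Ioc]
    have h2 : Set.Ioi (0 : ℝ) ∩ Set.Ioc 0 1 = Set.Ioc 0 1 := by
      ext y; simp only [Set.mem_inter_iff, Set.mem_Ioi, Set.mem_Ioc]; tauto
    rw [h2, ← intervalIntegral.integral_of_le zero_le_one, intervalIntegral.integral_const_mul]
    congr 1
    rw [intervalIntegral.integral_sub ((continuous_pow 2).intervalIntegrable _ _)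
      ((continuous_pow 4).intervalIntegrable _ _)]
    rw [integral_pow, integral_pow]
    norm_num
  rw [hI]
  have hpi := Real.pi_pos
  simp only [nsmul_eq_mul, smul_eq_mul, Nat.cast_ofNat]
  field_simp
  norm_num

/-! ### scaling -/

/-- gradient of `vE` -/
def bE (ε : ℝ) (i : Fin 3) (x : X) : ℝ := ε⁻¹ ^ 2 * b i (ε⁻¹ • x)

section scaled

variable {ε : ℝ}

lemma norm_scal (hε : 0 < ε) (x : X) : ‖ε⁻¹ • x‖ = ‖x‖ / ε := by
  rw [norm_smul, Real.norm_eq_abs, abs_of_pos (inv_pos.mpr hε)]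
  ring

lemma one_le_norm_scal (hε : 0 < ε) {x : X} (h : ε ≤ ‖x‖) : 1 ≤ ‖ε⁻¹ • x‖ := by
  rw [norm_scal hε, le_div_iff₀ hε, one_mul]; exact h

lemma vE_pos (hε : 0 < ε) (x : X) : 0 < vE ε x :=
  mul_pos (inv_pos.mpr hε) (v_pos _)

lemma vE_le_two (hε : 0 < ε) (x : X) : vE ε x ≤ 2 / ε := by
  unfold vE
  rw [div_eq_inv_mul]
  exact mul_le_mul_of_nonneg_left (v_le_two _) (inv_pos.mpr hε).le

lemma vE_eq (hε : 0 < ε) {x : X} (h : ε ≤ ‖x‖) : vE ε x = ‖x‖⁻¹ := by
  unfold vE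
  rw [v_eq _ (one_le_norm_scal hε h), norm_scal hε]
  have : 0 < ‖x‖ := lt_of_lt_of_le hε h
  field_simp

lemma vE_le (hε : 0 < ε) {x : X} (hx : x ≠ 0) : vE ε x ≤ ‖x‖⁻¹ := by
  unfold vE
  have h0 : 0 < ‖x‖ := norm_pos_iff.mpr hx
  have h1 : ε⁻¹ • x ≠ 0 := smul_ne_zero (inv_pos.mpr hε).ne' hx
  have h2 := v_le _ h1
  rw [norm_scal hε] at h2
  calc ε⁻¹ * v (ε⁻¹ • x) ≤ ε⁻¹ * (‖x‖ / ε)⁻¹ :=
        mul_le_mul_of_nonneg_left h2 (inv_pos.mpr hε).le
    _ = ‖x‖⁻¹ := by field_simp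

lemma vE_lip_abs (hε : 0 < ε) (x y : X) : |vE ε x - vE ε y| ≤ 3 / ε ^ 2 * ‖x - y‖ := by
  unfold vE
  rw [← mul_sub, abs_mul, abs_of_pos (inv_pos.mpr hε)]
  have h := v_lip.dist_le_mul (ε⁻¹ • x) (ε⁻¹ • y)
  rw [Real.dist_eq, dist_eq_norm, ← smul_sub, norm_scal hε] at h
  have h3 : ((3 : NNReal) : ℝ) = 3 := by norm_num
  rw [h3] at h
  calc ε⁻¹ * |v (ε⁻¹ • x) - v (ε⁻¹ • y)| ≤ ε⁻¹ * (3 * (‖x - y‖ / ε)) :=
        mul_le_mul_of_nonneg_left h (inv_pos.mpr hε).le
    _ = 3 / ε ^ 2 * ‖x - y‖ := by field_simp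

lemma vE_lip (hε : 0 < ε) : LipschitzWith (Real.toNNReal (3 / ε ^ 2)) (vE ε) := by
  apply LipschitzWith.of_dist_le_mul
  intro x y
  rw [Real.dist_eq, dist_eq_norm, Real.coe_toNNReal _ (by positivity)]
  exact vE_lip_abs hε x y

lemma vE_cont (hε : 0 < ε) : Continuous (vE ε) := (vE_lip hε).continuous

lemma scal_hasFDerivAt {f : X → ℝ} {f' : X →L[ℝ] ℝ} {x : X} (c : ℝ)
    (hf : HasFDerivAt f f' (c • x)) :
    HasFDerivAt (fun y => f (c • y)) (c • f') x := by
  have h1 : HasFDerivAt (fun y : X => c • y) (c • ContinuousLinearMap.id ℝ X) x :=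
    (hasFDerivAt_id x).const_smul c
  have h2 := HasFDerivAt.comp x hf h1
  refine h2.congr_fderiv ?_
  ext y
  simp

lemma vE_line (_hε : 0 < ε) (i : Fin 3) (x : X) : HasLineDerivAt ℝ (vE ε) (bE ε i x) x (e i) := by
  have h1 := (scal_hasFDerivAt ε⁻¹ (hasFDerivAt_v (ε⁻¹ • x))).const_mul ε⁻¹
  have h := h1.hasLineDerivAt (e i)
  have e1 : (ε⁻¹ • ε⁻¹ • hprof (‖ε⁻¹ • x‖ ^ 2) • (innerSL ℝ (ε⁻¹ • x))) (e i) = bE ε i x := by
    simp only [smul_apply, innerSL_apply_apply, inner_e, smul_eq_mul]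
    unfold bE b
    ring
  rw [e1] at h
  exact h

lemma bE_abs (hε : 0 < ε) (i : Fin 3) (x : X) : |bE ε i x| ≤ 3 / ε ^ 2 := by
  unfold bE
  rw [abs_mul, abs_of_nonneg (by positivity)]
  have := b_abs i (ε⁻¹ • x)
  calc ε⁻¹ ^ 2 * |b i (ε⁻¹ • x)| ≤ ε⁻¹ ^ 2 * 3 := by gcongr
    _ = 3 / ε ^ 2 := by field_simp

lemma bE_lip_abs (hε : 0 < ε) (i : Fin 3) (x y : X) :
    |bE ε i x - bE ε i y| ≤ 6 / ε ^ 3 * ‖x - y‖ := by
  unfold bE
  rw [← mul_sub, abs_mul, abs_of_nonneg (by positivity)]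
  have h := (b_lip i).dist_le_mul (ε⁻¹ • x) (ε⁻¹ • y)
  rw [Real.dist_eq, dist_eq_norm, ← smul_sub, norm_scal hε] at h
  have h3 : ((6 : NNReal) : ℝ) = 6 := by norm_num
  rw [h3] at h
  calc ε⁻¹ ^ 2 * |b i (ε⁻¹ • x) - b i (ε⁻¹ • y)| ≤ ε⁻¹ ^ 2 * (6 * (‖x - y‖ / ε)) := by gcongr
    _ = 6 / ε ^ 3 * ‖x - y‖ := by field_simp

lemma bE_lip (hε : 0 < ε) (i : Fin 3) : LipschitzWith (Real.toNNReal (6 / ε ^ 3)) (bE ε i) := by
  apply LipschitzWith.of_dist_le_mul
  intro x y
  rw [Real.dist_eq, dist_eq_norm, Real.coe_toNNReal _ (by positivity)]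
  exact bE_lip_abs hε i x y

lemma bE_div (ε : ℝ) (x : X) :
    ∑ i, lineDeriv ℝ (bE ε i) x (e i) = -(4 * Real.pi) * mE ε x := by
  have h1 : ∀ i, lineDeriv ℝ (bE ε i) x (e i) = ε⁻¹ ^ 3 * lineDeriv ℝ (b i) (ε⁻¹ • x) (e i) := by
    intro i
    have h1 := (scal_hasFDerivAt ε⁻¹ (hasFDerivAt_b i (ε⁻¹ • x))).const_mul (ε⁻¹ ^ 2)
    have h2 := (h1.hasLineDerivAt (e i)).lineDeriv
    have h3 := ((hasFDerivAt_b i (ε⁻¹ • x)).hasLineDerivAt (e i)).lineDeriv
    have e1 : bE ε i = fun y => ε⁻¹ ^ 2 * b i (ε⁻¹ • y) := rfl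
    rw [e1, h2, h3]
    simp only [smul_apply, smul_eq_mul]
    ring
  simp only [h1]
  rw [← Finset.mul_sum, b_div]
  unfold mE
  ring

theorem green_vE (hε : 0 < ε) {ψ : X → ℝ} (hψ : Test ψ) :
    ∫ x, ∑ i, bE ε i x * lineDeriv ℝ ψ x (e i) = 4 * Real.pi * ∫ x, mE ε x * ψ x :=
  green_test hψ (bE_lip hε) (bE_div ε)

lemma mE_nonneg (hε : 0 < ε) (x : X) : 0 ≤ mE ε x :=
  mul_nonneg (by positivity) (m_nonneg _)

lemma mE_le (hε : 0 < ε) (x : X) : mE ε x ≤ ε⁻¹ ^ 3 := by
  unfold mE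
  calc ε⁻¹ ^ 3 * m (ε⁻¹ • x) ≤ ε⁻¹ ^ 3 * 1 := by
        have := m_le (ε⁻¹ • x)
        gcongr
    _ = _ := mul_one _

lemma mE_cont (ε : ℝ) : Continuous (mE ε) := by
  unfold mE
  exact continuous_const.mul (m_cont.comp (continuous_const_smul _))

lemma mE_supp (hε : 0 < ε) {x : X} (h : ε ≤ ‖x‖) : mE ε x = 0 := by
  unfold mE
  rw [m_supp (one_le_norm_scal hε h), mul_zero]

lemma mE_even (ε : ℝ) (x : X) : mE ε (-x) = mE ε x := by
  unfold mE
  rw [smul_neg, m_even]

lemma mE_int (hε : 0 < ε) : ∫ x, mE ε x = 1 := by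
  unfold mE
  rw [integral_const_mul, Measure.integral_comp_smul volume m ε⁻¹, m_int]
  have hd : Module.finrank ℝ X = 3 := by simp
  rw [hd, abs_of_nonneg (by positivity)]
  simp only [smul_eq_mul, mul_one]
  field_simp

lemma mE_hcs (hε : 0 < ε) : HasCompactSupport (mE ε) := by
  refine HasCompactSupport.intro (isCompact_closedBall (0 : X) ε) ?_
  intro x hx
  apply mE_supp hε
  simp only [Metric.mem_closedBall, dist_zero_right, not_le] at hx
  exact hx.le

lemma mE_integrable (hε : 0 < ε) : Integrable (mE ε) :=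
  (mE_cont ε).integrable_of_hasCompactSupport (mE_hcs hε)

end scaled


/-! ### the Newton kernel -/

lemma integrableOn_norm_inv (r : ℝ) :
    IntegrableOn (fun x : X => ‖x‖⁻¹) (Metric.ball (0 : X) r) := by
  have h := integrableOn_fun_norm_addHaar (E := X) (F := ℝ) (volume : Measure X)
    (f := fun y : ℝ => y⁻¹) (r := r)
  rw [h]
  have hd : Module.finrank ℝ X = 3 := by simp
  rw [hd]
  have h1 : IntegrableOn (fun y : ℝ => y) (Set.Ioo 0 r) :=
    (continuous_id.integrableOn_Icc (a := 0) (b := r)).mono_set Set.Ioo_subset_Icc_self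
  refine h1.congr_fun ?_ measurableSet_Ioo
  intro y hy
  have : y ≠ 0 := hy.1.ne'
  simp only [smul_eq_mul]
  field_simp

/-- the integral of the kernel on a ball -/
def kerI (r : ℝ) : ℝ := ∫ x in Metric.ball (0 : X) r, ‖x‖⁻¹

lemma kerI_nonneg (r : ℝ) : 0 ≤ kerI r :=
  integral_nonneg fun x => inv_nonneg.mpr (norm_nonneg x)

lemma integrable_mul_inv {u : X → ℝ} (hu : Continuous u) (hs : HasCompactSupport u) :
    Integrable (fun x => u x * ‖x‖⁻¹) := by
  obtain ⟨R, hR⟩ := hs.isCompact.isBounded.subset_ball (0 : X)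
  obtain ⟨C, hC⟩ := hs.exists_bound_of_continuous hu
  have h1 : Integrable ((Metric.ball (0 : X) R).indicator fun x : X => ‖x‖⁻¹) :=
    (integrableOn_norm_inv R).integrable_indicator measurableSet_ball
  have h2 := h1.bdd_mul (f := u) (c := C) hu.aestronglyMeasurable
    (Filter.Eventually.of_forall hC)
  refine h2.congr (Filter.Eventually.of_forall fun x => ?_)
  simp only
  by_cases hx : x ∈ Metric.ball (0 : X) R
  · rw [Set.indicator_of_mem hx]
  · rw [Set.indicator_of_notMem hx]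
    have : u x = 0 := by
      by_contra h
      exact hx (hR (subset_tsupport _ h))
    rw [this]; ring

lemma ae_ne_zero : ∀ᵐ x : X, x ≠ 0 := by
  have : (volume : Measure X) {(0 : X)} = 0 := measure_singleton 0
  exact compl_mem_ae_iff.mpr this

/-- small smearing: convergence of the potentials -/
lemma tendsto_vE {u : X → ℝ} (hu : Continuous u) (hs : HasCompactSupport u) :
    Filter.Tendsto (fun n : ℕ => ∫ x, u x * vE (1 / ((n : ℝ) + 1)) x) Filter.atTop
      (nhds (∫ x, u x * ‖x‖⁻¹)) := by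
  have hpos : ∀ n : ℕ, (0 : ℝ) < 1 / ((n : ℝ) + 1) := fun n => by positivity
  refine tendsto_integral_of_dominated_convergence (fun x => |u x| * ‖x‖⁻¹) ?_ ?_ ?_ ?_
  · intro n
    exact (hu.mul (vE_cont (hpos n))).aestronglyMeasurable
  · have h := (integrable_mul_inv hu hs).norm
    refine h.congr (Filter.Eventually.of_forall fun x => ?_)
    show ‖u x * ‖x‖⁻¹‖ = |u x| * ‖x‖⁻¹
    rw [norm_mul, Real.norm_eq_abs, Real.norm_eq_abs,
      abs_of_nonneg (inv_nonneg.mpr (norm_nonneg x))]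
  · intro n
    filter_upwards [ae_ne_zero] with x hx
    rw [norm_mul, Real.norm_eq_abs, Real.norm_eq_abs, abs_of_pos (vE_pos (hpos n) x)]
    exact mul_le_mul_of_nonneg_left (vE_le (hpos n) hx) (abs_nonneg _)
  · filter_upwards [ae_ne_zero] with x hx
    apply Filter.Tendsto.const_mul
    have hx' : 0 < ‖x‖ := norm_pos_iff.mpr hx
    refine tendsto_const_nhds.congr' ?_
    have ht : Filter.Tendsto (fun n : ℕ => 1 / ((n : ℝ) + 1)) Filter.atTop (nhds 0) :=
      tendsto_one_div_add_atTop_nhds_zero_nat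
    filter_upwards [ht.eventually (gt_mem_nhds hx')] with n hn
    exact (vE_eq (hpos n) hn.le).symm

/-- small smearing: convergence to the point value -/
lemma tendsto_mE {f : X → ℝ} {K : NNReal} (hf : LipschitzWith K f) (a : X) :
    Filter.Tendsto (fun n : ℕ => ∫ x, mE (1 / ((n : ℝ) + 1)) x * f (x + a)) Filter.atTop
      (nhds (f a)) := by
  have hpos : ∀ n : ℕ, (0 : ℝ) < 1 / ((n : ℝ) + 1) := fun n => by positivity
  have hfc : Continuous (fun x => f (x + a)) := hf.continuous.comp (continuous_add_const a)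
  have hi : ∀ n : ℕ, Integrable (fun x => mE (1 / ((n : ℝ) + 1)) x * f (x + a)) := fun n =>
    ((mE_cont _).mul hfc).integrable_of_hasCompactSupport ((mE_hcs (hpos n)).mul_right)
  rw [tendsto_iff_norm_sub_tendsto_zero]
  have ht : Filter.Tendsto (fun n : ℕ => (K : ℝ) * (1 / ((n : ℝ) + 1))) Filter.atTop (nhds 0) := by
    have := (tendsto_one_div_add_atTop_nhds_zero_nat (𝕜 := ℝ)).const_mul (K : ℝ)
    simpa using this
  refine squeeze_zero (fun n => norm_nonneg _) (fun n => ?_) ht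
  set η : ℝ := 1 / ((n : ℝ) + 1) with hη
  have h0 : 0 < η := hpos n
  have e1 : (∫ x, mE η x * f (x + a)) - f a = ∫ x, mE η x * (f (x + a) - f a) := by
    have h2 : ∫ x, mE η x * (f (x + a) - f a)
        = ∫ x, (mE η x * f (x + a) - mE η x * f a) := by
      congr 1; funext x; ring
    rw [h2, integral_sub (hi n) ((mE_integrable h0).mul_const _), integral_mul_const, mE_int h0,
      one_mul]
  rw [e1]
  calc ‖∫ x, mE η x * (f (x + a) - f a)‖ ≤ ∫ x, ‖mE η x * (f (x + a) - f a)‖ :=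
        norm_integral_le_integral_norm _
    _ ≤ ∫ x, mE η x * (K * η) := by
        apply integral_mono_of_nonneg (Filter.Eventually.of_forall fun x => norm_nonneg _)
          ((mE_integrable h0).mul_const _)
        refine Filter.Eventually.of_forall fun x => ?_
        simp only
        rw [norm_mul, Real.norm_eq_abs, abs_of_nonneg (mE_nonneg h0 x)]
        rcases le_or_gt η ‖x‖ with h | h
        · rw [mE_supp h0 h]; simp
        · apply mul_le_mul_of_nonneg_left _ (mE_nonneg h0 x)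
          have h3 := hf.dist_le_mul (x + a) a
          rw [dist_eq_norm, dist_eq_norm, add_sub_cancel_right] at h3
          calc _ ≤ (K : ℝ) * ‖x‖ := h3
            _ ≤ K * η := by gcongr
    _ = K * η := by rw [integral_mul_const, mE_int h0, one_mul]

/-! ### far field -/

lemma bE_eq {ε : ℝ} (hε : 0 < ε) (i : Fin 3) {x : X} (h : ε ≤ ‖x‖) :
    bE ε i x = -(‖x‖⁻¹ ^ 3) * x i := by
  unfold bE b
  rw [hprof_far (one_le_norm_scal hε h), norm_scal hε]
  have h1 : 0 < ‖x‖ := lt_of_lt_of_le hε h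
  have h2 : (ε⁻¹ • x) i = ε⁻¹ * x i := by simp
  rw [h2]
  field_simp

lemma hcs_of_zero {f : X → ℝ} {R : ℝ} (h : ∀ x, R ≤ ‖x‖ → f x = 0) : HasCompactSupport f := by
  refine HasCompactSupport.intro (isCompact_closedBall (0 : X) R) ?_
  intro x hx
  apply h
  simp only [Metric.mem_closedBall, dist_zero_right, not_le] at hx
  exact hx.le

lemma newton_diff {d D : ℝ} (hd : 0 < d) (hD : d < D) (a : X) :
    vE d a - vE D a = ∫ x, (mE d (x + a) - mE D (x + a)) * ‖x‖⁻¹ := by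
  have hD0 : 0 < D := lt_trans hd hD
  -- the shifted functions
  have hshift : ∀ {f : X → ℝ} {K : NNReal}, LipschitzWith K f →
      LipschitzWith K (fun x => f (x + a)) := by
    intro f K hf
    apply LipschitzWith.of_dist_le_mul
    intro x y
    have := hf.dist_le_mul (x + a) (y + a)
    rwa [dist_add_right] at this
  have hfar : ∀ {f : X → ℝ}, (∀ x, D ≤ ‖x‖ → f x = 0) → HasCompactSupport (fun x => f (x + a)) := by
    intro f hf
    apply hcs_of_zero (R := D + ‖a‖)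
    intro x hx
    apply hf
    have := norm_sub_le (x + a) a
    rw [add_sub_cancel_right] at this
    linarith
  have hline : ∀ {f : X → ℝ} {c : ℝ} {x w : X}, HasLineDerivAt ℝ f c (x + a) w →
      HasLineDerivAt ℝ (fun y => f (y + a)) c x w := by
    intro f c x w h
    unfold HasLineDerivAt at h ⊢
    have e1 : (fun t : ℝ => f (x + t • w + a)) = fun t : ℝ => f (x + a + t • w) := by
      funext t; congr 1; abel
    rw [e1]; exact h
  set f : X → ℝ := fun x => vE d x - vE D x with hf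
  have hfL : LipschitzWith (Real.toNNReal (3 / d ^ 2) + Real.toNNReal (3 / D ^ 2)) f :=
    (vE_lip hd).sub (vE_lip hD0)
  have hf0 : ∀ x, D ≤ ‖x‖ → f x = 0 := by
    intro x hx
    simp only [hf]
    rw [vE_eq hd (hD.le.trans hx), vE_eq hD0 hx, sub_self]
  set G : Fin 3 → X → ℝ := fun i x => bE d i x - bE D i x with hG
  have hGL : ∀ i, LipschitzWith (Real.toNNReal (6 / d ^ 3) + Real.toNNReal (6 / D ^ 3)) (G i) :=
    fun i => (bE_lip hd i).sub (bE_lip hD0 i)
  have hG0 : ∀ i x, D ≤ ‖x‖ → G i x = 0 := by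
    intro i x hx
    simp only [hG]
    rw [bE_eq hd i (hD.le.trans hx), bE_eq hD0 i hx, sub_self]
  have hfG : ∀ i x, HasLineDerivAt ℝ f (G i x) x (e i) := by
    intro i x
    have h1 := vE_line hd i x
    have h2 := vE_line hD0 i x
    exact HasDerivAt.sub h1 h2
  have hbE : ∀ (ε : ℝ) (i : Fin 3) (x : X), LineDifferentiableAt ℝ (bE ε i) x (e i) := by
    intro ε i x
    have h1 := (scal_hasFDerivAt ε⁻¹ (hasFDerivAt_b i (ε⁻¹ • x))).const_mul (ε⁻¹ ^ 2)
    exact (h1.hasLineDerivAt (e i)).lineDifferentiableAt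
  have hGdiv : ∀ x, ∑ i, lineDeriv ℝ (fun y => G i (y + a)) x (e i)
      = -(4 * Real.pi) * (mE d (x + a) - mE D (x + a)) := by
    intro x
    have h1 : ∀ i, lineDeriv ℝ (fun y => G i (y + a)) x (e i)
        = lineDeriv ℝ (bE d i) (x + a) (e i) - lineDeriv ℝ (bE D i) (x + a) (e i) := by
      intro i
      apply HasLineDerivAt.lineDeriv
      apply hline
      exact HasDerivAt.sub (hbE d i (x + a)).hasLineDerivAt (hbE D i (x + a)).hasLineDerivAt
    simp only [h1]
    rw [Finset.sum_sub_distrib, bE_div, bE_div]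
    ring
  have key : ∀ η : ℝ, 0 < η →
      ∫ x, mE η x * f (x + a) = ∫ x, (mE d (x + a) - mE D (x + a)) * vE η x := by
    intro η hη
    have h1 := green_vE hη (ψ := fun x => f (x + a)) ⟨⟨_, hshift hfL⟩, hfar hf0⟩
    have h2 := green_field (G := fun i x => G i (x + a)) (ρ := fun x => mE d (x + a) - mE D (x + a))
      (f := vE η) (vE_lip hη) (fun i => hshift (hGL i)) (fun i => hfar (hG0 i)) hGdiv
    have h3 : ∫ x, ∑ i, bE η i x * lineDeriv ℝ (fun x => f (x + a)) x (e i)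
        = ∫ x, ∑ i, G i (x + a) * lineDeriv ℝ (vE η) x (e i) := by
      congr 1
      funext x
      refine Finset.sum_congr rfl fun i _ => ?_
      rw [(vE_line hη i x).lineDeriv, (hline (hfG i (x + a))).lineDeriv]
      ring
    have hpi := Real.pi_pos
    have h4 : 4 * Real.pi * ∫ x, mE η x * f (x + a)
        = 4 * Real.pi * ∫ x, (mE d (x + a) - mE D (x + a)) * vE η x := by
      rw [← h1, h3, h2]
    exact mul_left_cancel₀ (by positivity) h4
  have hu : Continuous (fun x => mE d (x + a) - mE D (x + a)) :=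
    ((mE_cont d).comp (continuous_add_const a)).sub ((mE_cont D).comp (continuous_add_const a))
  have hus : HasCompactSupport (fun x => mE d (x + a) - mE D (x + a)) := by
    apply hfar (f := fun x => mE d x - mE D x)
    intro x hx
    rw [mE_supp hd (hD.le.trans hx), mE_supp hD0 hx, sub_self]
  have l1 := tendsto_mE hfL a
  have l2 := tendsto_vE hu hus
  have l3 : Filter.Tendsto (fun n : ℕ => ∫ x, mE (1 / ((n : ℝ) + 1)) x * f (x + a)) Filter.atTop
      (nhds (∫ x, (mE d (x + a) - mE D (x + a)) * ‖x‖⁻¹)) := by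
    refine l2.congr fun n => ?_
    exact (key _ (by positivity)).symm
  exact tendsto_nhds_unique l1 l3

lemma mE_shift_integrable {ε : ℝ} (hε : 0 < ε) (a : X) :
    Integrable (fun x => mE ε (x + a) * ‖x‖⁻¹) := by
  apply integrable_mul_inv ((mE_cont ε).comp (continuous_add_const a))
  apply hcs_of_zero (R := ε + ‖a‖)
  intro x hx
  apply mE_supp hε
  have := norm_sub_le (x + a) a
  rw [add_sub_cancel_right] at this
  linarith

lemma shift_nonneg {ε : ℝ} (hε : 0 < ε) (a : X) : 0 ≤ ∫ x, mE ε (x + a) * ‖x‖⁻¹ :=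
  integral_nonneg fun x => mul_nonneg (mE_nonneg hε _) (inv_nonneg.mpr (norm_nonneg x))

lemma shift_le {ε R : ℝ} (hε : 0 < ε) (hR : 0 < R) (a : X) :
    ∫ x, mE ε (x + a) * ‖x‖⁻¹ ≤ ε⁻¹ ^ 3 * kerI R + R⁻¹ := by
  have hi : Integrable (fun x => mE ε (x + a)) := (mE_integrable hε).comp_add_right a
  have hk : Integrable ((Metric.ball (0 : X) R).indicator fun x : X => ‖x‖⁻¹) :=
    (integrableOn_norm_inv R).integrable_indicator measurableSet_ball
  have h1 : ∫ x, mE ε (x + a) * ‖x‖⁻¹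
      ≤ ∫ x, (ε⁻¹ ^ 3 * (Metric.ball (0 : X) R).indicator (fun x : X => ‖x‖⁻¹) x
        + mE ε (x + a) * R⁻¹) := by
    apply integral_mono (mE_shift_integrable hε a) ((hk.const_mul _).add (hi.mul_const _))
    intro x
    simp only [Pi.add_apply]
    have hm0 := mE_nonneg hε (x + a)
    have hm1 := mE_le hε (x + a)
    have hn : 0 ≤ ‖x‖⁻¹ := inv_nonneg.mpr (norm_nonneg x)
    by_cases hx : x ∈ Metric.ball (0 : X) R
    · rw [Set.indicator_of_mem hx]
      have : 0 ≤ mE ε (x + a) * R⁻¹ := by positivity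
      have h2 : mE ε (x + a) * ‖x‖⁻¹ ≤ ε⁻¹ ^ 3 * ‖x‖⁻¹ := mul_le_mul_of_nonneg_right hm1 hn
      linarith
    · rw [Set.indicator_of_notMem hx, mul_zero, zero_add]
      simp only [Metric.mem_ball, dist_zero_right, not_lt] at hx
      apply mul_le_mul_of_nonneg_left _ hm0
      exact inv_anti₀ hR hx
  rw [integral_add (hk.const_mul _) (hi.mul_const _), integral_const_mul, integral_mul_const,
    integral_indicator measurableSet_ball] at h1
  have h2 : ∫ x, mE ε (x + a) = 1 := by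
    rw [integral_add_right_eq_self (fun x => mE ε x) a, mE_int hε]
  rw [h2, one_mul] at h1
  exact h1

theorem newton_shift {ε : ℝ} (hε : 0 < ε) (a : X) :
    ∫ x, mE ε (x + a) * ‖x‖⁻¹ = vE ε a := by
  have h1 : ∀ R : ℝ, 0 < R → |vE ε a - ∫ x, mE ε (x + a) * ‖x‖⁻¹| ≤ R⁻¹ := by
    intro R hR
    have hlim : Filter.Tendsto (fun D : ℝ => 2 / D + D⁻¹ ^ 3 * kerI R + R⁻¹) Filter.atTop
        (nhds (0 + 0 ^ 3 * kerI R + R⁻¹)) := by
      have t1 : Filter.Tendsto (fun D : ℝ => 2 / D) Filter.atTop (nhds 0) :=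
        tendsto_const_nhds.div_atTop Filter.tendsto_id
      have t2 : Filter.Tendsto (fun D : ℝ => D⁻¹) Filter.atTop (nhds 0) := tendsto_inv_atTop_zero
      exact (t1.add ((t2.pow 3).mul_const _)).add_const _
    have hz : (0 : ℝ) + 0 ^ 3 * kerI R + R⁻¹ = R⁻¹ := by ring
    rw [hz] at hlim
    refine ge_of_tendsto hlim ?_
    filter_upwards [Filter.eventually_gt_atTop ε] with D hD
    have hD0 : 0 < D := lt_trans hε hD
    have h2 := newton_diff hε hD a
    have h3 : ∫ x, (mE ε (x + a) - mE D (x + a)) * ‖x‖⁻¹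
        = (∫ x, mE ε (x + a) * ‖x‖⁻¹) - ∫ x, mE D (x + a) * ‖x‖⁻¹ := by
      rw [← integral_sub (mE_shift_integrable hε a) (mE_shift_integrable hD0 a)]
      congr 1; funext x; ring
    rw [h3] at h2
    have h4 : vE ε a - ∫ x, mE ε (x + a) * ‖x‖⁻¹ = vE D a - ∫ x, mE D (x + a) * ‖x‖⁻¹ := by
      linarith
    rw [h4, abs_le]
    have h5 := vE_pos hD0 a
    have h6 := vE_le_two hD0 a
    have h7 := shift_nonneg hD0 a
    have h8 := shift_le hD0 hR a
    have h9 : 0 ≤ D⁻¹ ^ 3 * kerI R := mul_nonneg (by positivity) (kerI_nonneg R)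
    have h10 : 0 < R⁻¹ := inv_pos.mpr hR
    have h11 : 0 < 2 / D := by positivity
    constructor <;> linarith
  have h2 : |vE ε a - ∫ x, mE ε (x + a) * ‖x‖⁻¹| ≤ 0 := by
    refine ge_of_tendsto (tendsto_inv_atTop_zero (𝕜 := ℝ)) ?_
    filter_upwards [Filter.eventually_gt_atTop 0] with R hR
    exact h1 R hR
  have h3 := abs_nonpos_iff.mp h2
  linarith

/-- Newton's theorem for the smeared charge -/
theorem newton {ε : ℝ} (hε : 0 < ε) (x : X) : ∫ y, mE ε y / ‖x - y‖ = vE ε x := by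
  rw [← integral_add_right_eq_self (fun y => mE ε y / ‖x - y‖) x, ← newton_shift hε x]
  congr 1
  funext z
  have : ‖x - (z + x)‖ = ‖z‖ := by
    rw [show x - (z + x) = -z by abel, norm_neg]
  rw [this, div_eq_mul_inv]

/-- integrability in Newton's theorem -/
theorem newton_integrable {ε : ℝ} (hε : 0 < ε) (x : X) :
    Integrable (fun y => mE ε y / ‖x - y‖) := by
  have h := (mE_shift_integrable hε x).comp_sub_right x
  refine h.congr (Filter.Eventually.of_forall fun z => ?_)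
  simp only
  rw [sub_add_cancel, norm_sub_rev, div_eq_mul_inv]

end

end Pool.Agent.Helper96.TF
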